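import Pool.Agent.H10.VolP

set_option autoImplicit false

namespace Pool.Agent.Results.MP_81f94f_an.PositiveFails

open MeasureTheory Set Pool.Agent.H10.Vol

/-- Conditions (i)-(iv) do not characterise the norm sequences of positive elements. -/
theorem result : ∃ ω : ℕ → ℝ, Admissible ω ∧
    ¬ ∃ μ : Measure ℝ, IsFiniteMeasure μ ∧ μ (Ioo 0 1)ᶜ = 0 ∧
      ∀ n, 1 ≤ n → (pw μ n) univ = ENNReal.ofReal (ω n) :=
  ⟨om, om_adm, fun ⟨μ, h1, h2, h3⟩ => by
    haveI := h1
    exact main μ h2 h3⟩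

end Pool.Agent.Results.MP_81f94f_an.PositiveFails
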